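import Mathlib
import Pool.Agent.PCH.Rainbow
import Pool.Agent.NIPFields.Final
import Pool.Agent.NIPFields.LC.Final
import Pool.Agent.NIPFields.RC.Unify
import Pool.Agent.NIPFields.RB.DepShelah

set_option autoImplicit false

/-!
# NIP fields without nontrivial definable valuation rings

If a field has a nontrivial definable valuation ring, the chain condition `Ucc` fails in it. All rosy
fields satisfy `Ucc`.
-/

namespace Pool.Agent.SRF

open FirstOrder FirstOrder.Language FirstOrder.Ring Set Module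
open Pool.Agent.NIPFields Pool.Agent.NIPFields.LC Pool.Agent.NIPFields.RC
open Pool.Agent.NIPFields.RB

universe u

/-- Chains of uniformly definable additive subgroups have steps of small index. -/
def Ucc (K : Type u) [Field K] [CompatibleRing K] : Prop :=
  ∀ (k : ℕ) (φ : Language.ring.Formula (Fin 1 ⊕ Fin k)), ∃ N : ℕ,
    ∀ (G : ℕ → AddSubgroup K) (c : ℕ → Fin k → K),
      (∀ n ≤ N, ∀ x : K, x ∈ G n ↔ φ.Realize (Sum.elim (fun _ => x) (c n))) →
      (∀ n < N, G (n + 1) ≤ G n) →
        ∃ n < N, 0 < (G (n + 1)).relIndex (G n) ∧ (G (n + 1)).relIndex (G n) ≤ N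

/-! ### Valuation rings -/

theorem relIndex_chain {A : Type u} [AddGroup A] {H : ℕ → AddSubgroup A}
    (hH : ∀ i, H (i + 1) < H i) (a M : ℕ) :
    (H (a + M)).relIndex (H a) = 0 ∨ 2 ^ M ≤ (H (a + M)).relIndex (H a) := by
  have hle : ∀ M, H (a + M) ≤ H a := by
    intro M
    induction M with
    | zero => exact le_refl _
    | succ M ih => exact (hH (a + M)).le.trans ih
  induction M with
  | zero => right; simp
  | succ M ih =>
    have h1 : (H (a + (M + 1))).relIndex (H (a + M)) * (H (a + M)).relIndex (H a) =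
        (H (a + (M + 1))).relIndex (H a) :=
      AddSubgroup.relIndex_mul_relIndex _ _ _ (hH (a + M)).le (hle M)
    have h2 : (H (a + (M + 1))).relIndex (H (a + M)) ≠ 1 := by
      intro h
      exact (hH (a + M)).not_ge (AddSubgroup.relIndex_eq_one.1 h)
    rw [← h1]
    rcases Nat.eq_zero_or_pos ((H (a + (M + 1))).relIndex (H (a + M))) with h3 | h3
    · left; rw [h3, zero_mul]
    · rcases ih with h4 | h4
      · left; rw [h4, mul_zero]
      · right
        rw [pow_succ']
        exact Nat.mul_le_mul (by omega) h4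

/-- The multiples `a * O` of a valuation ring. -/
def mulO {K : Type u} [Field K] (O : ValuationSubring K) (b : K) : AddSubgroup K :=
  O.toSubring.toAddSubgroup.comap (AddMonoidHom.mulRight b)

theorem mem_mulO {K : Type u} [Field K] {O : ValuationSubring K} {b x : K} :
    x ∈ mulO O b ↔ x * b ∈ O := Iff.rfl

theorem no_definable {K : Type u} [Field K] [CompatibleRing K] (hR : Ucc K)
    {O : ValuationSubring K} (hO : O ≠ ⊤)
    (hd : (univ : Set K).Definable₁ Language.ring {x | x ∈ O}) : False := by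
  obtain ⟨m, ψ, c, hψ⟩ := exists_formula_of_definable hd
  let tf : Fin 1 ⊕ Fin m → Language.ring.Term (Fin 1 ⊕ Fin (m + 1)) :=
    Sum.elim (fun _ => Term.var (Sum.inl 0) * Term.var (Sum.inr 0))
      (fun i => Term.var (Sum.inr i.succ))
  let φ : Language.ring.Formula (Fin 1 ⊕ Fin (m + 1)) := BoundedFormula.subst ψ tf
  have hφ : ∀ (x b : K), φ.Realize (Sum.elim (fun _ => x) (Fin.cons b c : Fin (m + 1) → K)) ↔
      x * b ∈ O := by
    intro x b
    have h1 : x * b ∈ O ↔ ψ.Realize (Sum.elim (fun _ => x * b) c) := hψ (x * b)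
    rw [h1]
    change (BoundedFormula.subst ψ tf).Realize _ _ ↔ _
    rw [BoundedFormula.realize_subst]
    have h2 : (fun a => (tf a).realize
        (Sum.elim (fun _ => x) (Fin.cons b c : Fin (m + 1) → K))) =
        Sum.elim (fun _ => x * b) c := by
      funext a
      rcases a with a | a
      · simp [tf]
      · simp [tf]
    rw [h2]
    exact Iff.rfl
  obtain ⟨N, hN⟩ := hR (m + 1) φ
  -- a nonzero element of the maximal ideal
  obtain ⟨y, hy⟩ : ∃ y : K, y ∉ O := by
    by_contra h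
    push Not at h
    exact hO (eq_top_iff.2 fun x _ => h x)
  have hy0 : y ≠ 0 := by
    rintro rfl
    exact hy O.zero_mem
  have hyi : y⁻¹ ∈ O := by
    rcases O.mem_or_inv_mem y with h | h
    · exact absurd h hy
    · exact h
  let H : ℕ → AddSubgroup K := fun i => mulO O (y ^ i)
  have hH : ∀ i, H (i + 1) < H i := by
    intro i
    refine lt_of_le_of_ne ?_ ?_
    · intro x hx
      have h1 : x * y ^ (i + 1) ∈ O := hx
      change x * y ^ i ∈ O
      have h2 : x * y ^ i = x * y ^ (i + 1) * y⁻¹ := by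
        rw [pow_succ]
        field_simp
      rw [h2]
      exact O.mul_mem _ _ h1 hyi
    · intro h
      have h1 : (y ^ i)⁻¹ ∈ H i := by
        change (y ^ i)⁻¹ * y ^ i ∈ O
        rw [inv_mul_cancel₀ (pow_ne_zero i hy0)]
        exact O.one_mem
      rw [← h] at h1
      have h2 : (y ^ i)⁻¹ * y ^ (i + 1) ∈ O := h1
      rw [pow_succ, inv_mul_cancel_left₀ (pow_ne_zero i hy0)] at h2
      exact hy h2
  let M : ℕ := N + 1
  obtain ⟨n, hn, h0, hle⟩ := hN (fun n => H (M * n)) (fun n => Fin.cons (y ^ (M * n)) c)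
    (fun n _ x => (hφ x (y ^ (M * n))).symm) (fun n _ => by
      have h1 : ∀ a b, H (a + b) ≤ H a := by
        intro a b
        induction b with
        | zero => exact le_refl _
        | succ b ih => exact (hH (a + b)).le.trans ih
      rw [Nat.mul_succ]
      exact h1 _ _)
  have h3 : (H (M * (n + 1))).relIndex (H (M * n)) = 0 ∨
      2 ^ M ≤ (H (M * (n + 1))).relIndex (H (M * n)) := by
    rw [Nat.mul_succ]
    exact relIndex_chain hH (M * n) M
  rcases h3 with h3 | h3
  · exact h0.ne' h3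
  · have h4 : M < 2 ^ M := Nat.lt_two_pow_self
    have h5 : (H (M * (n + 1))).relIndex (H (M * n)) ≤ N := hle
    omega

/-! ### Powers -/

/-- The successive indices of the chain of powers are infinite if the first one is. -/
theorem relIndex_pow {L : Type u} [Field L] {ℓ : ℕ} (hℓ : 0 < ℓ)
    (h : ((powMonoidHom ℓ : Lˣ →* Lˣ).range).index = 0) (n : ℕ) :
    ((powMonoidHom (ℓ ^ (n + 1)) : Lˣ →* Lˣ).range).relIndex
      (powMonoidHom (ℓ ^ n) : Lˣ →* Lˣ).range = 0 := by
  set f : Lˣ →* Lˣ := powMonoidHom (ℓ ^ n) with hf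
  set R : Subgroup Lˣ := (powMonoidHom ℓ : Lˣ →* Lˣ).range with hRdef
  have h1 : (powMonoidHom (ℓ ^ (n + 1)) : Lˣ →* Lˣ).range = R.map f := by
    ext x
    constructor
    · rintro ⟨y, rfl⟩
      refine ⟨y ^ ℓ, ⟨y, rfl⟩, ?_⟩
      change (y ^ ℓ) ^ ℓ ^ n = y ^ ℓ ^ (n + 1)
      rw [← pow_mul, pow_succ']
    · rintro ⟨_, ⟨y, rfl⟩, rfl⟩
      refine ⟨y, ?_⟩
      change y ^ ℓ ^ (n + 1) = (y ^ ℓ) ^ ℓ ^ n
      rw [← pow_mul, pow_succ']
  have h2 : f.range = (⊤ : Subgroup Lˣ).map f := MonoidHom.range_eq_map f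
  rw [h1, h2, Subgroup.relIndex_map_map, top_sup_eq, Subgroup.relIndex_top_right]
  by_contra h3
  have hfin : Finite f.ker := by
    have : NeZero (ℓ ^ n) := ⟨(pow_pos hℓ n).ne'⟩
    have h4 : Finite (rootsOfUnity (ℓ ^ n) L) := inferInstance
    refine Finite.of_injective (fun x : f.ker => (⟨x.1, ?_⟩ : rootsOfUnity (ℓ ^ n) L)) ?_
    · rw [mem_rootsOfUnity]
      exact x.2
    · intro x y hxy
      exact Subtype.ext (congrArg (fun z : rootsOfUnity (ℓ ^ n) L => (z : Lˣ)) hxy)
  have h4 : R.relIndex (R ⊔ f.ker) ≠ 0 := by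
    rw [Subgroup.relIndex_sup_left]
    exact Subgroup.index_ne_zero_of_finite
  have h5 : R.relIndex ⊤ ≠ 0 := Subgroup.relIndex_ne_zero_trans h4 (by
    rw [Subgroup.relIndex_top_right]; exact h3)
  rw [Subgroup.relIndex_top_right] at h5
  exact h5 h

/-- A non-perfect infinite field has infinitely many classes modulo `p`-th powers. -/
theorem exists_pow_of_index {K : Type u} [Field K] [Infinite K] {p : ℕ} [hp : Fact p.Prime]
    [CharP K p] (h : ((powMonoidHom p : Kˣ →* Kˣ).range).index ≠ 0) (t : K) :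
    ∃ s : K, s ^ p = t := by
  by_contra hcon
  push Not at hcon
  have hne : ∀ s : K, 1 + s ^ p * t ≠ 0 := by
    intro s hs
    have hs0 : s ≠ 0 := by
      rintro rfl
      rw [zero_pow hp.out.ne_zero, zero_mul, add_zero] at hs
      exact one_ne_zero hs
    apply hcon (-s⁻¹)
    have h1 : (-s⁻¹) ^ p * s ^ p = -1 := by
      rw [← mul_pow, neg_mul, inv_mul_cancel₀ hs0]
      rcases hp.out.eq_two_or_odd' with h2 | h2
      · subst h2
        have h3 : (2 : K) = 0 := by exact_mod_cast CharP.cast_eq_zero K 2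
        linear_combination h3
      · rw [h2.neg_pow, one_pow]
    have hsp : s ^ p ≠ 0 := pow_ne_zero p hs0
    apply mul_right_cancel₀ hsp
    rw [h1]
    linear_combination -hs
  let q : K → Kˣ ⧸ (powMonoidHom p : Kˣ →* Kˣ).range := fun s =>
    QuotientGroup.mk (Units.mk0 (1 + s ^ p * t) (hne s))
  have hq : Function.Injective q := by
    intro r s hrs
    obtain ⟨w, hw⟩ := QuotientGroup.eq.1 hrs
    have h1 : ((w : K)) ^ p = (1 + r ^ p * t)⁻¹ * (1 + s ^ p * t) := by
      have h2 := congrArg (fun z : Kˣ => (z : K)) hw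
      simpa using h2
    have h2 : (w : K) ^ p * (1 + r ^ p * t) = 1 + s ^ p * t := by
      rw [h1]
      have := hne r
      field_simp
    have h3 : ((w : K) - 1) ^ p = (w : K) ^ p - 1 := by
      rw [sub_pow_char (w : K) 1, one_pow]
    have h4 : ((s : K) - w * r) ^ p = s ^ p - w ^ p * r ^ p := by
      rw [sub_pow_char s ((w : K) * r), mul_pow]
    have h5 : ((w : K) - 1) ^ p = t * (s - w * r) ^ p := by
      rw [h3, h4]
      linear_combination h2
    by_cases h6 : s - w * r = 0
    · rw [h6, zero_pow hp.out.ne_zero, mul_zero] at h5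
      have h7 : (w : K) - 1 = 0 := pow_eq_zero_iff hp.out.ne_zero |>.1 h5
      have h8 : (w : K) = 1 := by linear_combination h7
      rw [h8] at h6
      linear_combination -h6
    · exfalso
      apply hcon (((w : K) - 1) / (s - w * r))
      rw [div_pow, h5]
      have := pow_ne_zero p h6
      field_simp
  have hinf : Infinite (Kˣ ⧸ (powMonoidHom p : Kˣ →* Kˣ).range) := Infinite.of_injective q hq
  apply h
  exact Nat.card_eq_zero_of_infinite

/-! ### Roots of unity -/

/-- Adjoining the `q`-th roots of unity makes no new `q`-th powers. -/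
theorem exists_cyclotomic {L : Type u} [Field L] [CharZero L] {q : ℕ} (hq : q.Prime) :
    ∃ (L' : Type u) (_ : Field L') (_ : Algebra L L'), FiniteDimensional L L' ∧
      (∃ ζ : L', IsPrimitiveRoot ζ q) ∧
      ∀ a : L, (∀ y : L, a ≠ y ^ q) → ∀ y : L', algebraMap L L' a ≠ y ^ q := by
  have hne : NeZero ((q : ℕ) : L) := ⟨Nat.cast_ne_zero.2 hq.ne_zero⟩
  have hq0 : NeZero q := ⟨hq.ne_zero⟩
  let C := CyclotomicField q L
  have hfd : FiniteDimensional L C := IsCyclotomicExtension.finiteDimensional {q} L C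
  have hneC : NeZero ((q : ℕ) : C) := NeZero.nat_of_injective (algebraMap L C).injective
  have hζ := IsCyclotomicExtension.zeta_spec q L C
  have h1 : finrank L C ≤ q - 1 := by
    have h3 : finrank L C = (minpoly L (IsCyclotomicExtension.zeta q L C)).natDegree := by
      rw [(hζ.powerBasis L).finrank, IsPrimitiveRoot.powerBasis_dim]
    rw [h3, ← Nat.totient_prime hq, ← Polynomial.natDegree_cyclotomic q L]
    refine Polynomial.natDegree_le_of_dvd (minpoly.dvd _ _ ?_)
      (Polynomial.cyclotomic_ne_zero q L)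
    rw [Polynomial.aeval_def, ← Polynomial.eval_map, Polynomial.map_cyclotomic]
    exact hζ.isRoot_cyclotomic hq.pos
  refine ⟨C, inferInstance, inferInstance, hfd, ⟨_, hζ⟩, fun a ha y hy => ?_⟩
  set d := finrank L C with hd
  have hd0 : 0 < d := finrank_pos
  have hcop : Nat.Coprime d q := by
    have := hq.one_lt
    exact (Nat.coprime_of_lt_prime hd0.ne' (by omega) hq).symm
  have h2 : a ^ d = (Algebra.norm L y) ^ q := by
    rw [← map_pow, ← hy, Algebra.norm_algebraMap]
  have ha0 : a ≠ 0 := by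
    rintro rfl
    exact ha 0 (by rw [zero_pow hq.ne_zero])
  -- Bezout
  obtain ⟨u, v, huv⟩ : ∃ u v : ℤ, (d : ℤ) * u + (q : ℤ) * v = 1 := by
    refine ⟨Nat.gcdA d q, Nat.gcdB d q, ?_⟩
    have h3 := Nat.gcd_eq_gcd_ab d q
    rw [Nat.Coprime.gcd_eq_one hcop] at h3
    exact_mod_cast h3.symm
  apply ha ((Algebra.norm L y) ^ u * a ^ v)
  have hn0 : Algebra.norm L y ≠ 0 := by
    intro h0
    rw [h0, zero_pow hq.ne_zero] at h2
    exact pow_ne_zero d ha0 h2
  have h4 : ((Algebra.norm L y) ^ u * a ^ v) ^ q = a := by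
    rw [mul_pow, ← zpow_natCast, ← zpow_natCast, ← zpow_mul, ← zpow_mul, mul_comm u, zpow_mul,
      zpow_natCast, ← h2, ← zpow_natCast, ← zpow_mul, ← zpow_add₀ ha0]
    rw [mul_comm v]
    rw [huv, zpow_one]
  exact h4.symm

/-! ### The theorem -/

theorem exists_finite_ext {K : Type u} [Field K] [CharZero K] :
    IsAlgClosed K ∨ Module.finrank K (AlgebraicClosure K) = 2 ∨
      ∃ (L : Type u) (_ : Field L) (_ : Algebra K L) (q : ℕ), FiniteDimensional K L ∧ q.Prime ∧
        (∃ i : L, i ^ 2 = -1) ∧ (∃ a : L, ∀ y, a ≠ y ^ q) ∧ ∃ ζ : L, IsPrimitiveRoot ζ q := by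
  rcases exists_not_power (K := K) with h | h | ⟨L, _, _, q, hfd, ⟨i, hi⟩, hq, a, ha⟩
  · exact Or.inl h
  · exact Or.inr (Or.inl h)
  · have hL0 : CharZero L := charZero_of_injective_algebraMap (algebraMap K L).injective
    obtain ⟨L', _, _, hfd', hζ, h'⟩ := exists_cyclotomic (L := L) hq
    let _ : Algebra K L' := ((algebraMap L L').comp (algebraMap K L)).toAlgebra
    have : IsScalarTower K L L' := IsScalarTower.of_algebraMap_eq fun _ => rfl
    refine Or.inr (Or.inr ⟨L', inferInstance, inferInstance, q, FiniteDimensional.trans K L L',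
      hq, ⟨algebraMap L L' i, ?_⟩, ⟨algebraMap L L' a, h' a ha⟩, hζ⟩)
    rw [← map_pow, hi, map_neg, map_one]

/-- The local statements. -/
theorem local_statement {K : Type u} [Field K] [CompatibleRing K] [CharZero K] (hK : NIP K)
    (no : ∀ O : ValuationSubring K, O ≠ ⊤ →
      ¬ (univ : Set K).Definable₁ Language.ring {x | x ∈ O}) {L : Type u} [Field L] [Algebra K L] [FiniteDimensional K L] {ℓ : ℕ}
    (hℓ : ℓ.Prime) (hi : ∃ i : L, i ^ 2 = -1) (ha : ∃ a : L, ∀ y, a ≠ y ^ ℓ) :
    (∀ n : ℕ, ((powMonoidHom (ℓ ^ (n + 1)) : Lˣ →* Lˣ).range).relIndex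
      (powMonoidHom (ℓ ^ n) : Lˣ →* Lˣ).range = 0) ∧
    (∀ (Q : Type) [Group Q], Finite Q → IsPGroup ℓ Q → SecF K Q) ∧
    (Nonempty (AlgebraicClosure ℚ →+* K) → ∀ (Q : Type) [Group Q], Finite Q → IsPGroup ℓ Q →
      ∃ (M : Type u) (_ : Field M) (_ : Algebra L M), FiniteDimensional L M ∧ IsGalois L M ∧
        Nonempty (Q ≃* (M ≃ₐ[L] M))) ∧
    ((∃ ζ : L, IsPrimitiveRoot ζ ℓ) → ∀ (B : Finset L) (F : Finset (L × (L → ℕ))),
      (∀ f ∈ F, f.1 ≠ 0 ∧ ∃ b ∈ B, ¬ ℓ ∣ f.2 b) →
        ∃ x : L, ∀ f ∈ F, ∀ y : L, y ^ ℓ ≠ f.1 * ∏ b ∈ B, (x + b) ^ f.2 b) := by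
  have hL0 : CharZero L := charZero_of_injective_algebraMap (algebraMap K L).injective
  have hKinf : Infinite K := CharZero.infinite K
  refine ⟨?_, ?_, ?_, ?_⟩
  · refine relIndex_pow hℓ.pos ?_
    by_contra h
    obtain ⟨O, h1, h2⟩ := exists_definable_of_extension hK (L := L) hℓ.two_le ⟨h⟩ ha hi
    exact no O h1 h2
  · intro Q _ hQf hQ
    by_contra h
    obtain ⟨O, h1, h2⟩ := exists_definable_of_not_secF hK (L := L) hℓ hi ha hQ h
    exact no O h1 h2
  · rintro ⟨φ⟩ Q _ hQf hQ
    by_contra h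
    have hno : ∀ (M : Type u) [Field M] [Algebra L M], FiniteDimensional L M → IsGalois L M →
        IsEmpty (Q ≃* (M ≃ₐ[L] M)) := by
      intro M _ _ h3 h4
      by_contra h5
      exact h ⟨M, inferInstance, inferInstance, h3, h4, not_isEmpty_iff.1 h5⟩
    have hne : NeZero (ℓ : AlgebraicClosure ℚ) := ⟨Nat.cast_ne_zero.2 hℓ.ne_zero⟩
    obtain ⟨ζ, hζ⟩ := HasEnoughRootsOfUnity.exists_primitiveRoot (AlgebraicClosure ℚ) ℓ
    obtain ⟨B, -, hB⟩ := noRainbow_of_group ((algebraMap K L).comp φ) hℓ hQ hno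
    obtain ⟨O, h1, h2⟩ := exists_definable_ext hK (L := L) hℓ hi
      (hζ.map_of_injective ((algebraMap K L).comp φ).injective) ha (C := ∅) (B := B)
      (by simp) fun c hc => by
        obtain ⟨b, hb, b', hb', hne, h⟩ := hB c hc
        exact ⟨b, hb, b', hb', hne, Pw_subset_TC h⟩
    exact no O h1 h2
  · rintro ⟨ζ, hζ⟩ B F hF
    by_contra h
    push Not at h
    have hinf := infinite_top (K := L)
    obtain ⟨B', -, hB'⟩ := Thin.exists_noRainbow (⊤ : Subfield L) hℓ
      (Nat.cast_ne_zero.2 hℓ.ne_zero) ⟨B, F, fun _ _ => trivial, hF, h⟩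
    obtain ⟨O, h1, h2⟩ := exists_definable_ext hK (L := L) hℓ hi hζ ha (C := ∅) (B := B')
      (by simp) fun c hc => by
        obtain ⟨b, hb, b', hb', hne, h⟩ := hB' c hc
        exact ⟨b, hb, b', hb', hne, Pw_subset_TC h⟩
    exact no O h1 h2

/-- Positive characteristic. -/
theorem positive {K : Type u} [Field K] [CompatibleRing K] [Infinite K] (hK : NIP K)
    (no : ∀ O : ValuationSubring K, O ≠ ⊤ →
      ¬ (univ : Set K).Definable₁ Language.ring {x | x ∈ O}) {p : ℕ} (hp : p.Prime) [CharP K p] :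
    IsSepClosed K ∧ (IsAlgClosed K ∨ ∀ n : ℕ,
      ((powMonoidHom (p ^ (n + 1)) : Kˣ →* Kˣ).range).relIndex
        (powMonoidHom (p ^ n) : Kˣ →* Kˣ).range = 0) := by
  have : Fact p.Prime := ⟨hp⟩
  have hsep : IsSepClosed K := by
    rcases Pool.Agent.PCH.shelah_positive hK p with h | h | ⟨O, h1, -, h2⟩
    · exact absurd h (not_finite_iff_infinite.2 inferInstance)
    · exact h
    · exact (no O h1 h2).elim
  refine ⟨hsep, ?_⟩
  by_cases h : ((powMonoidHom p : Kˣ →* Kˣ).range).index = 0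
  · exact Or.inr (relIndex_pow hp.pos h)
  · left
    have hperf : PerfectRing K p := PerfectRing.ofSurjective K p fun t => by
      obtain ⟨s, hs⟩ := exists_pow_of_index h t
      exact ⟨s, hs⟩
    have hpf : PerfectField K := PerfectRing.toPerfectField K p
    infer_instance

end Pool.Agent.SRF
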